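import Pool.Agent.PST.StmtsU
import Pool.Agent.Helper32_PSS.CrrB

/-!
Squad PST, block U, row CRT (helper49): the trace formula over `K` in the form of rings.  An edit of
`Helper32_PSS/CRR.lean`.
-/

set_option autoImplicit false

open scoped BigOperators TensorProduct

noncomputable section

namespace Pool.Agent.PST.U.H49

open Pool.Agent.PFC (IsTv)
open Pool.Agent.PFD.D2 (Cdv FibG)
open Pool.Agent.PFD.D2b (FrR)
open Finset
open Pool.Agent.PSS
open Pool.Agent.PSS.Dm (cst)
open Pool.Agent.PSS.H32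

theorem exTv {V : Type} [CommGroup V] [Fintype V] (W : Subgroup V) :
    ∃ S : Finset V, IsTv W ⊤ S ∧ S.card = W.index := by
  classical
  have : Fintype (V ⧸ W) := Fintype.ofFinite _
  refine ⟨Finset.univ.image (fun q : V ⧸ W => q.out), ⟨fun s _ => Subgroup.mem_top s, ?_⟩, ?_⟩
  · intro p _
    refine ⟨((p : V ⧸ W)).out, ⟨Finset.mem_image_of_mem _ (Finset.mem_univ _), ?_⟩, ?_⟩
    · rw [← QuotientGroup.eq, QuotientGroup.out_eq']
    · rintro s ⟨hs, hs2⟩
      obtain ⟨q, -, rfl⟩ := Finset.mem_image.1 hs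
      rw [← QuotientGroup.eq, QuotientGroup.out_eq'] at hs2
      rw [hs2]
  · have hi : Function.Injective (fun q : V ⧸ W => q.out) := fun a b h =>
      Quotient.out_injective h
    have h1 := Finset.card_image_of_injective Finset.univ hi
    refine h1.trans ?_
    rw [Finset.card_univ, Subgroup.index, Nat.card_eq_fintype_card]

theorem crt (hfun : FunStmt) (rfe : RfeStmt) (rtc : RtcStmt) (rfs : S0.RfsStmt) : CrtStmt := by
  classical
  intro K V B κ κ' _ _ _ _ _ _ _ _ _ W _ β lamK x y P m D Λ x' y' hT hDm hrf hRF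
  subst hDm
  have hpm := hT.pm
  have h0 := hT.p0
  obtain ⟨Φ, hmul, hof⟩ := exPhi D h0 hpm
  let T : Dm K (aw β W) := triv K (aw β W)
  have htm : ∀ f g, T.of f * T.of g = T.of (fun n => ∑ q ∈ antidiagonal n, f q.1 * g q.2) :=
    triv_of_mul (aw β W)
  have htc : ∀ a g, T.of (cst a) * T.of g = T.of (fun n => a * g n) := triv_cst_mul (aw β W)
  have htd : ∀ a g, T.of g * T.of (cst a) = T.of (fun n => g n * a) := triv_mul_cst (aw β W)
  -- the group
  have hw : ∀ w : W, Φ (D.w w) = T.w w := by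
    intro w
    show Φ (D.of (cst (aw β W w))) = T.of (cst (aw β W w))
    rw [hof]
    congr 1
    funext n
    rw [act_Ps, Finset.sum_eq_single (n, 0)]
    · show P n (cst (aw β W w) 0) = cst (aw β W w) n
      rcases n with _ | n
      · rw [h0]
        rfl
      · have h1 := (hT.pw (n + 1) w.1 w.2 1).1
        rw [mul_one, hT.p1, mul_zero] at h1
        exact h1
    · rintro ⟨b, c⟩ h hne
      rcases c with _ | c
      · rw [Finset.HasAntidiagonal.mem_antidiagonal] at h
        simp only [add_zero] at h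
        exact absurd (by rw [h]) hne
      · simp [cst]
    · intro h
      exact absurd (by rw [Finset.HasAntidiagonal.mem_antidiagonal]; simp) h
  -- the inverse is multiplicative
  have hsymm : ∀ a b, Φ.symm (a * b) = Φ.symm a * Φ.symm b := by
    intro a b
    apply Φ.injective
    rw [hmul, LinearEquiv.apply_symm_apply, LinearEquiv.apply_symm_apply,
      LinearEquiv.apply_symm_apply]
  -- the forms
  let Λ₁ : T.R →ₗ[PowerSeries K] PowerSeries K := Λ.comp Φ.symm.toLinearMap
  have hΛ₁ : ∀ a, Λ₁ (Φ a) = Λ a := by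
    intro a
    show Λ (Φ.symm (Φ a)) = Λ a
    rw [LinearEquiv.symm_apply_apply]
  have hs1 : ∀ a b, Λ₁ (a * b) = Λ₁ (b * a) := by
    intro a b
    show Λ (Φ.symm (a * b)) = Λ (Φ.symm (b * a))
    rw [hsymm, hsymm, hRF.sym]
  obtain ⟨Λ₀, hΛ₀'⟩ := (hfun K W B (aw β W) T).1 (fun n => if n = 0 then lamK else 0)
  have hΛ₀ : ∀ f n, PowerSeries.coeff n (Λ₀ (T.of f)) = lamK (f n) := by
    intro f n
    rw [hΛ₀', Finset.sum_eq_single (0, n)]
    · rfl
    · rintro ⟨b, c⟩ h hne
      rcases b with _ | b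
      · rw [Finset.HasAntidiagonal.mem_antidiagonal] at h
        simp only [zero_add] at h
        exact absurd (by rw [h]) hne
      · rw [if_neg (Nat.succ_ne_zero b)]
        rfl
    · intro h
      exact absurd (by rw [Finset.HasAntidiagonal.mem_antidiagonal]; simp) h
  have hs0 : ∀ a b, Λ₀ (a * b) = Λ₀ (b * a) := by
    intro a b
    rw [← T.of_sq a, ← T.of_sq b, htm, htm]
    ext n
    rw [hΛ₀, hΛ₀, map_sum, map_sum,
      ← Finset.Nat.sum_antidiagonal_swap (f := fun p : ℕ × ℕ =>
        lamK (T.sq b p.1 * T.sq a p.2))]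
    exact Finset.sum_congr rfl fun p _ => hrf.sym _ _
  -- the constant dual families
  obtain ⟨S, hS, hSc⟩ := exTv W
  have hRFW := rfs K V B κ β lamK x y W S hrf hS
  obtain ⟨X, hX⟩ : ∃ X : κ × S → B, X = fun p => x p.1 * β (p.2 : V) :=
    ⟨_, rfl⟩
  obtain ⟨Y, hY⟩ : ∃ Y : κ × S → B, Y = fun p => β (p.2 : V)⁻¹ * y p.1 :=
    ⟨_, rfl⟩
  rw [← hX, ← hY] at hRFW
  have hTw : ∀ w : W, T.w w = T.of (cst (aw β W w)) := fun _ => rfl
  have he1 : ∀ a, ∑ k, ∑ w, Λ₀ (T.w w⁻¹ * T.of (cst (Y k)) * a) • (T.of (cst (X k)) * T.w w) =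
      a := by
    intro a
    have h1 : ∀ k w, Λ₀ (T.w w⁻¹ * T.of (cst (Y k)) * a) • (T.of (cst (X k)) * T.w w) =
        T.of (fun n => lamK (aw β W w⁻¹ * Y k * T.sq a n) • (X k * aw β W w)) := by
      intro k w
      have h2 : T.of (cst (X k)) * T.w w = T.of (cst (X k * aw β W w)) := by
        rw [hTw, htd]
        congr 1
        funext n
        rw [cst, cst]
        split_ifs
        · rfl
        · rw [zero_mul]
      have h3 : T.w w⁻¹ * T.of (cst (Y k)) * a =
          T.of (fun n => aw β W w⁻¹ * Y k * T.sq a n) := by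
        rw [mul_assoc]
        conv_lhs => rw [← T.of_sq a]
        rw [htc, hTw, htc]
        congr 1
        funext n
        rw [mul_assoc]
      rw [h2, h3, smul_cst]
      congr 1
      funext n
      rw [hΛ₀]
    rw [Finset.sum_congr rfl fun k _ => Finset.sum_congr rfl fun w _ => h1 k w]
    rw [Finset.sum_congr rfl fun k _ => (of_sum T Finset.univ _).symm, ← of_sum T Finset.univ]
    have h4 : (fun n => ∑ k, ∑ w, lamK (aw β W w⁻¹ * Y k * T.sq a n) • (X k * aw β W w)) =
        T.sq a := by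
      funext n
      exact hRFW.e1 (T.sq a n)
    rw [h4, T.of_sq]
  obtain ⟨hRF0, hnd0, hperf0⟩ := rfe (PowerSeries K) W T.R (κ × S) T.w Λ₀
    (fun k => T.of (cst (X k))) (fun k => T.of (cst (Y k))) hs0 he1
  obtain ⟨N, hN⟩ := hperf0 Λ₁
  -- `N` is central
  have hNc : ∀ a, N * a = a * N := by
    intro a
    rw [← sub_eq_zero]
    apply hnd0
    intro b
    rw [sub_mul, map_sub, sub_eq_zero]
    calc Λ₀ (N * a * b) = Λ₁ (a * b) := by rw [hN, mul_assoc]
      _ = Λ₁ (b * a) := hs1 a b
      _ = Λ₀ (N * (b * a)) := hN _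
      _ = Λ₀ ((b * a) * N) := hs0 _ _
      _ = Λ₀ (b * (a * N)) := by rw [mul_assoc]
      _ = Λ₀ (a * N * b) := hs0 _ _
  -- dual families of `Λ₁`
  have he1' : ∀ a, ∑ k, ∑ w, Λ₁ (T.w w⁻¹ * Φ (y' k) * a) • (Φ (x' k) * T.w w) = a := by
    intro a
    have h1 := congrArg Φ (hRF.e1 (Φ.symm a))
    rw [LinearEquiv.apply_symm_apply, map_sum] at h1
    refine Eq.trans ?_ h1
    refine Finset.sum_congr rfl fun k _ => ?_
    rw [map_sum]
    refine Finset.sum_congr rfl fun w _ => ?_
    rw [map_smul, hmul, hw, ← hΛ₁, hmul, hmul, hw, LinearEquiv.apply_symm_apply]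
  obtain ⟨hRF1, -, hperf1⟩ := rfe (PowerSeries K) W T.R κ' T.w Λ₁
    (fun k => Φ (x' k)) (fun k => Φ (y' k)) hs1 he1'
  obtain ⟨N', hN'⟩ := hperf1 Λ₀
  have hNN : N * N' = 1 := by
    rw [← sub_eq_zero]
    apply hnd0
    intro a
    rw [sub_mul, map_sub, one_mul, mul_assoc, ← hN, ← hN', sub_self]
  -- the constants
  have hcm : ∀ a b : B, T.of (cst (a * b)) = T.of (cst a) * T.of (cst b) := by
    intro a b
    rw [htc]
    congr 1
    funext n
    rw [cst, cst]
    split_ifs
    · rfl
    · rw [mul_zero]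
  have hca : ∀ a b : B, T.of (cst (a + b)) = T.of (cst a) + T.of (cst b) := by
    intro a b
    rw [← T.of_add]
    congr 1
    funext n
    show cst (a + b) n = cst a n + cst b n
    rw [cst, cst, cst]
    split_ifs
    · rfl
    · rw [add_zero]
  have hc0 : T.of (cst (0 : B)) = 0 := by
    have h1 := hca 0 0
    rw [add_zero] at h1
    exact left_eq_add.1 h1
  have hTw1 : ∀ w : W, T.w w = T.of (cst (β w)) := fun _ => rfl
  have hc1 : T.of (cst (1 : B)) = 1 := by
    have h1 := hTw1 1
    rw [map_one, Subgroup.coe_one, map_one] at h1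
    exact h1.symm
  let j : B →+* T.R :=
    { toFun := fun b => T.of (cst b)
      map_one' := hc1
      map_mul' := hcm
      map_zero' := hc0
      map_add' := hca }
  have hj : ∀ b, j b = T.of (cst b) := fun _ => rfl
  have hΦ1 : Φ 1 = 1 := by
    have h1 := hw 1
    rw [map_one D.w, map_one T.w] at h1
    exact h1
  let Φr : D.R →+* T.R :=
    { toFun := Φ
      map_one' := hΦ1
      map_mul' := hmul
      map_zero' := map_zero Φ
      map_add' := map_add Φ }
  have hΦr : ∀ a, Φr a = Φ a := fun _ => rfl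
  refine ⟨T.R, inferInstance, inferInstance, Φr, j, N, N', Φ.bijective, ?_, ?_, hNc, hNN, ?_⟩
  · intro s a
    rw [hΦr, hΦr, map_smul]
  · intro t b
    rw [hj, hj, smul_cst]
    congr 1
    funext n
    rw [cst, PowerSeries.coeff_C]
    split_ifs
    · rfl
    · rw [zero_smul]
  · intro w
    have h1 := (rtc (PowerSeries K) W T.R (κ × S) κ' T.w Λ₀ _ _ hRF0).2 Λ₁ _ _ N N'
      hRF1 (fun b => hNc b) hNN hN (T.w w)
      (fun v => by rw [← map_mul, ← map_mul, mul_comm])
    have h2 : rt (fun k => Φ (x' k)) (fun k => Φ (y' k)) (T.w w) = Φ (rt x' y' (D.w w)) := by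
      unfold rt
      rw [map_sum]
      refine Finset.sum_congr rfl fun k _ => ?_
      rw [hmul, hmul, hw]
    have h3 : rt (fun k => T.of (cst (X k))) (fun k => T.of (cst (Y k))) (T.w w) =
        W.index • j (rt x y (β w)) := by
      unfold rt
      have h4 : ∀ k, T.of (cst (X k)) * T.w w * T.of (cst (Y k)) =
          j (x k.1 * β w * y k.1) := by
        intro k
        rw [hTw1, ← hcm, ← hcm, hj]
        congr 2
        rw [hX, hY]
        show x k.1 * β (k.2 : V) * β w * (β (k.2 : V)⁻¹ * y k.1) = _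
        have h5 : β (k.2 : V) * β w * β (k.2 : V)⁻¹ = β w := by
          rw [← map_mul, ← map_mul]
          congr 1
          rw [mul_comm (k.2 : V) (w : V), mul_assoc, mul_inv_cancel, mul_one]
        rw [← mul_assoc, mul_assoc (x k.1), mul_assoc (x k.1), h5]
      rw [Finset.sum_congr rfl fun k _ => h4 k, Fintype.sum_prod_type, map_sum, Finset.smul_sum]
      refine Finset.sum_congr rfl fun k _ => ?_
      show ∑ _ : S, j (x k * β w * y k) = _
      rw [Finset.sum_const, Finset.card_univ, Fintype.card_coe, hSc]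
    rw [h2, h3] at h1
    exact h1

end Pool.Agent.PST.U.H49
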