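import Pool.Agent.PST.StmtsDR

open scoped BigOperators

noncomputable section

namespace Pool.Agent.PST.H49

section

variable {F V E M : Type} [Field F] [CommGroup V] [Fintype V] [Group E] [AddCommGroup M]
  [Module F M] {φ : E →* MulAut V} {W Q : Subgroup V} {r : ℕ} {la : Fin r → V → F}
  {χ : Fin r → E → F} {xx : Fin r → V → F} {t : Fin r → F}

theorem spnM (h : Eg F φ W Q la χ xx t) (g : V → M) (hg : ∀ u v, g (u * v) = g u + g v)
    (hW : ∀ w ∈ W, g w = 0) (v : V) : g v = ∑ l, la l v • ∑ u, xx l u • g u := by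
  rw [← sub_eq_zero, ← Module.forall_dual_apply_eq_zero_iff F]
  intro ψ
  have h1 := h.spn (fun v => ψ (g v)) (fun u v => by rw [hg, map_add])
    (fun w hw => by rw [hW w hw, map_zero]) v
  rw [map_sub, sub_eq_zero, h1, map_sum]
  refine Finset.sum_congr rfl fun l _ => ?_
  rw [map_smul, map_sum, smul_eq_mul, mul_comm]
  congr 1
  exact Finset.sum_congr rfl fun u _ => by rw [map_smul, smul_eq_mul]

theorem sum_xl (h : Eg F φ W Q la χ xx t) (k : Fin r) (c : Fin r → M) :
    ∑ u, xx k u • ∑ l, la l u • c l = c k := by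
  simp only [Finset.smul_sum, smul_smul]
  rw [Finset.sum_comm]
  simp only [← Finset.sum_smul]
  simp only [h.xl, ite_smul, one_smul, zero_smul]
  rw [Finset.sum_ite_eq]
  simp

end

theorem alt : AltStmt := by
  intro F V E M _ _ _ _ _ _ φ W Q r la χ xx t f h hf1 hf2 hf3 hf4 hf5
  classical
  obtain ⟨I, hI⟩ : ∃ I : Fin r → V → M, ∀ n u, I n u = ∑ v, xx n v • f u v :=
    ⟨fun n u => ∑ v, xx n v • f u v, fun _ _ => rfl⟩
  obtain ⟨Mm, hMm⟩ : ∃ Mm : Fin r → Fin r → M, ∀ l n, Mm l n = ∑ u, xx l u • I n u :=
    ⟨fun l n => ∑ u, xx l u • I n u, fun _ _ => rfl⟩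
  have hanti : ∀ u v, f u v + f v u = 0 := by
    intro u v
    have h1 := hf4 (u * v)
    rw [hf1, hf2, hf2, hf4, hf4, zero_add, add_zero] at h1
    exact h1
  have e1 : ∀ u v, f u v = ∑ n, la n v • I n u := by
    intro u v
    rw [spnM h (fun v => f u v) (hf2 u) (fun w hw => (hf3 w hw u).2) v]
    exact Finset.sum_congr rfl fun n _ => by rw [hI]
  have hIadd : ∀ n u u', I n (u * u') = I n u + I n u' := by
    intro n u u'
    rw [hI, hI, hI, ← Finset.sum_add_distrib]
    exact Finset.sum_congr rfl fun v _ => by rw [hf1, smul_add]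
  have e2 : ∀ n u, I n u = ∑ l, la l u • Mm l n := by
    intro n u
    rw [spnM h (fun u => I n u) (hIadd n) (fun w hw => by
      rw [hI]
      exact Finset.sum_eq_zero fun v _ => by rw [(hf3 w hw v).1, smul_zero]) u]
    exact Finset.sum_congr rfl fun l _ => by rw [hMm]
  have e3 : ∀ u u', ∑ v, pg la xx t u v • f u' v = ∑ l, (t l * la l u) • I l u' := by
    intro u u'
    simp only [pg, Finset.sum_smul]
    rw [Finset.sum_comm]
    refine Finset.sum_congr rfl fun l _ => ?_
    rw [hI, Finset.smul_sum]
    exact Finset.sum_congr rfl fun v _ => by rw [smul_smul]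
  have e4 : ∀ u u', ∑ l, (t l * la l u) • I l u' + ∑ l, (t l * la l u') • I l u = 0 := by
    intro u u'
    have h1 := hf5 (u * u')
    rw [e3] at h1
    have h2 : ∑ l, (t l * la l (u * u')) • I l (u * u') =
        (∑ l, (t l * la l u) • I l u + ∑ l, (t l * la l u') • I l u') +
          (∑ l, (t l * la l u) • I l u' + ∑ l, (t l * la l u') • I l u) := by
      rw [← Finset.sum_add_distrib, ← Finset.sum_add_distrib, ← Finset.sum_add_distrib]
      refine Finset.sum_congr rfl fun l _ => ?_
      rw [hIadd, h.add, mul_add, add_smul, smul_add, smul_add]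
      abel
    rw [h2, ← e3 u u, ← e3 u' u', hf5, hf5, zero_add, zero_add] at h1
    exact h1
  have e5 : ∀ k u', t k • I k u' + ∑ l, (t l * la l u') • Mm k l = 0 := by
    intro k u'
    have h1 : ∑ u, xx k u • (∑ l, (t l * la l u) • I l u' + ∑ l, (t l * la l u') • I l u) = 0 :=
      Finset.sum_eq_zero fun u _ => by rw [e4, smul_zero]
    simp only [smul_add, Finset.sum_add_distrib] at h1
    have h2 : ∑ u, xx k u • ∑ l, (t l * la l u) • I l u' = t k • I k u' := by
      have h3 := sum_xl h k (fun l => t l • I l u')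
      rw [← h3]
      refine Finset.sum_congr rfl fun u _ => ?_
      congr 1
      exact Finset.sum_congr rfl fun l _ => by rw [smul_smul, mul_comm]
    have h4 : ∑ u, xx k u • ∑ l, (t l * la l u') • I l u = ∑ l, (t l * la l u') • Mm k l := by
      simp only [Finset.smul_sum]
      rw [Finset.sum_comm]
      refine Finset.sum_congr rfl fun l _ => ?_
      rw [hMm, Finset.smul_sum]
      exact Finset.sum_congr rfl fun u _ => by rw [smul_comm]
    rw [h2, h4] at h1
    exact h1
  have e6 : ∀ n k, t k • Mm n k + t n • Mm k n = 0 := by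
    intro n k
    have h1 : ∑ u, xx n u • (t k • I k u + ∑ l, (t l * la l u) • Mm k l) = 0 :=
      Finset.sum_eq_zero fun u _ => by rw [e5, smul_zero]
    simp only [smul_add, Finset.sum_add_distrib] at h1
    have h2 : ∑ u, xx n u • t k • I k u = t k • Mm n k := by
      rw [hMm, Finset.smul_sum]
      exact Finset.sum_congr rfl fun u _ => by rw [smul_comm]
    have h3 : ∑ u, xx n u • ∑ l, (t l * la l u) • Mm k l = t n • Mm k n := by
      have h4 := sum_xl h n (fun l => t l • Mm k l)
      rw [← h4]
      refine Finset.sum_congr rfl fun u _ => ?_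
      congr 1
      exact Finset.sum_congr rfl fun l _ => by rw [smul_smul, mul_comm]
    rw [h2, h3] at h1
    exact h1
  have hM : ∀ l n, Mm l n = ∑ p : V × V, (xx l p.1 * xx n p.2) • f p.1 p.2 := by
    intro l n
    rw [Fintype.sum_prod_type, hMm]
    refine Finset.sum_congr rfl fun u _ => ?_
    rw [hI, Finset.smul_sum]
    exact Finset.sum_congr rfl fun v _ => by rw [smul_smul]
  have e7 : ∀ l n, Mm l n + Mm n l = 0 := by
    intro l n
    have h1 : Mm n l = ∑ p : V × V, (xx l p.1 * xx n p.2) • f p.2 p.1 := by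
      rw [hM]
      refine (Equiv.sum_comp (Equiv.prodComm V V) _).symm.trans ?_
      refine Finset.sum_congr rfl fun p _ => ?_
      simp only [Equiv.prodComm_apply, Prod.fst_swap, Prod.snd_swap]
      rw [mul_comm]
    rw [h1, hM, ← Finset.sum_add_distrib]
    exact Finset.sum_eq_zero fun p _ => by rw [← smul_add, hanti, smul_zero]
  have e8 : ∀ l, Mm l l = 0 := by
    intro l
    rw [hM]
    refine Finset.sum_involution (fun p _ => p.swap) ?_ ?_ ?_ ?_
    · intro p _
      simp only [Prod.fst_swap, Prod.snd_swap]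
      rw [mul_comm (xx l p.2), ← smul_add, hanti, smul_zero]
    · intro p _ hp hs
      refine hp ?_
      have : p.2 = p.1 := congrArg Prod.fst hs
      rw [this, hf4, smul_zero]
    · intro p _
      exact Finset.mem_univ _
    · intro p _
      exact Prod.swap_swap p
  have e9 : ∀ l n, Mm l n = 0 := by
    intro l n
    rcases eq_or_ne l n with rfl | hln
    · exact e8 l
    · have h1 := e6 l n
      have h2 : Mm n l = - Mm l n := by
        rw [eq_neg_iff_add_eq_zero, add_comm]
        exact e7 l n
      rw [h2, smul_neg, ← sub_eq_add_neg, ← sub_smul] at h1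
      rcases smul_eq_zero.1 h1 with h3 | h3
      · exact absurd (h.tj (sub_eq_zero.1 h3)) (Ne.symm hln)
      · exact h3
  intro u v
  rw [e1]
  refine Finset.sum_eq_zero fun n _ => ?_
  rw [e2]
  simp only [e9, smul_zero, Finset.sum_const_zero]

end Pool.Agent.PST.H49
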