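import Pool.Agent.PST.StmtsDR

open scoped BigOperators PowerSeries

noncomputable section

namespace Pool.Agent.PST.H49

open Pool.Agent.PSS (aw)

theorem alf : AlfStmt := by
  intro ℓ _ F V A As _ _ _ _ _ _ _ _ α W γ q D lf G hq1 hq2 hq3 hF u h z hz hzc
  have hqX : ∀ x : As, q ((PowerSeries.X : F⟦X⟧) • x) = 0 := by
    intro x
    rw [Algebra.smul_def, map_mul, hq1, PowerSeries.constantCoeff_X, map_zero, zero_mul]
  have hinv : ∀ v : V, α v⁻¹ * α v = 1 := fun v => by rw [← map_mul, inv_mul_cancel, map_one]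
  have hinv' : ∀ v : V, α v * α v⁻¹ = 1 := fun v => by rw [← map_mul, mul_inv_cancel, map_one]
  obtain ⟨y, hy⟩ := hq2 (z - lf u) (by rw [map_sub, hz, hF.q0, sub_self])
  have hzy : z = lf u + (PowerSeries.X : F⟦X⟧) • y := by rw [← hy]; abel
  have hyc : ∀ w, γ w * y = y * γ w := by
    intro w
    have h1 := hzc w
    rw [hzy, mul_add, add_mul, hF.cm, mul_smul_comm, smul_mul_assoc] at h1
    have h2 := add_left_cancel h1
    have h3 : (PowerSeries.X : F⟦X⟧) • (γ w * y - y * γ w) = 0 := by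
      rw [smul_sub, h2, sub_self]
    rcases smul_eq_zero.1 h3 with h4 | h4
    · exact absurd h4 PowerSeries.X_ne_zero
    · exact sub_eq_zero.1 h4
  obtain ⟨s, hs⟩ : ∃ s : A, s = α u⁻¹ * q y := ⟨_, rfl⟩
  have hexp : ∀ n : ℕ, ∃ S R : As, z ^ n = lf u ^ n + (PowerSeries.X : F⟦X⟧) • S +
      (PowerSeries.X : F⟦X⟧) • ((PowerSeries.X : F⟦X⟧) • R) ∧
      α u⁻¹ ^ n * q S = ∑ j ∈ Finset.range n, α u⁻¹ ^ j * s * α u ^ j := by
    intro n
    induction n with
    | zero => exact ⟨0, 0, by simp, by simp⟩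
    | succ n ih =>
      obtain ⟨S, R, h1, h2⟩ := ih
      refine ⟨S * lf u + lf u ^ n * y, R * lf u + S * y + (PowerSeries.X : F⟦X⟧) • (R * y), ?_, ?_⟩
      · rw [pow_succ, h1, hzy]
        simp only [mul_add, add_mul, smul_add, mul_smul_comm, smul_mul_assoc]
        rw [pow_succ]
        abel
      · have h3 : α u⁻¹ ^ n * α u ^ n = 1 := by
          rw [← map_pow, ← map_pow, ← map_mul, inv_pow, inv_mul_cancel, map_one]
        rw [Finset.sum_range_succ', map_add, map_mul, map_mul, map_pow, hF.q0]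
        have h4 : α u⁻¹ ^ (n + 1) * (q S * α u + α u ^ n * q y) =
            α u⁻¹ * (α u⁻¹ ^ n * q S) * α u + α u⁻¹ * ((α u⁻¹ ^ n * α u ^ n) * q y) := by
          rw [pow_succ']
          simp only [mul_add, mul_assoc]
        rw [h4, h2, h3, one_mul, ← hs, pow_zero, pow_zero, one_mul, mul_one, Finset.mul_sum,
          Finset.sum_mul]
        congr 1
        refine Finset.sum_congr rfl fun j _ => ?_
        rw [pow_succ', pow_succ]
        simp only [mul_assoc]
  obtain ⟨S, R, h1, h2⟩ := hexp ℓ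
  refine ⟨G u + γ (⟨u ^ ℓ, h⟩ : W)⁻¹ * (S + (PowerSeries.X : F⟦X⟧) • R), s, ?_, ?_, ?_⟩
  · have h3 : γ ⟨u ^ ℓ, h⟩ * γ (⟨u ^ ℓ, h⟩ : W)⁻¹ = 1 := by
      rw [← map_mul, mul_inv_cancel, map_one]
    rw [h1, hF.pl u h]
    rw [mul_add, mul_add, mul_one, smul_add, mul_add, mul_smul_comm, mul_smul_comm, ← mul_assoc,
      h3, one_mul, smul_add]
    abel
  · intro w hw
    have h3 := congrArg q (hyc ⟨w, hw⟩)
    rw [map_mul, map_mul, hq3] at h3
    change α w * q y = q y * α w at h3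
    rw [hs, ← mul_assoc, ← map_mul, mul_comm w, map_mul, mul_assoc, h3, mul_assoc]
  · have h3 : aw α W (⟨u ^ ℓ, h⟩ : W)⁻¹ = α u⁻¹ ^ ℓ := by
      rw [← map_pow, inv_pow]
      rfl
    rw [map_add, hF.qG, map_mul, hq3, h3, map_add, hqX, add_zero, h2]

end Pool.Agent.PST.H49
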