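import Pool.Agent.PST.StmtsU

set_option autoImplicit false

open scoped BigOperators TensorProduct PowerSeries

noncomputable section

namespace Pool.Agent.PST.U.H49

open Pool.Agent.PSS
open Pool.Agent.PSS.S0
open Pool.Agent.PSS.S3

theorem gfv (hBOT : BotStmt) (hUNC : UncStmt) (hUNR : UnrStmt) (hBLV : BlvStmt) (hGFB : GfbStmt)
    (hZRT : ZrtStmt) : GfvStmt := by
  intro ℓ _ F F' W E As K _ _ _ _ _ _ _ _ _ _ _ _ ψ γ lam x y w₀ hinj hW hE hper0 huni0 hrf0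
    hcom hw₀ hvsh hnl het hrel
  classical
  obtain ⟨⟨lamS, hlamS, hrf⟩, hper, huni, -⟩ := hGFB F⟦X⟧ F' W E As K ψ γ lam x y hrf0 hper0 huni0
  have hℓF : (ℓ : F) = 0 := CharP.cast_eq_zero F ℓ
  have hℓX : (ℓ : F⟦X⟧) = 0 := by
    rw [← map_natCast (PowerSeries.C (R := F)), hℓF, map_zero]
  have hbot := hBOT ℓ F⟦X⟧ F' W E As ψ γ w₀ hinj hℓX hW hper0 hw₀ hvsh hnl
  obtain ⟨u, hu⟩ := hUNC ℓ F F' W E As K ψ γ lam x y hinj hW hE hper0 huni0 hrf0 het hbot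
  have hfx : ∀ w : W, γ w ∈ FxR (cw F⟦X⟧ γ) ⊤ := by
    intro w v _
    change γ v * (γ w * γ v⁻¹) = γ w
    rw [← map_mul, ← map_mul, mul_comm w, mul_inv_cancel_left]
  have hcw : ∀ (w : W) (c : As), (∑ k, x k * γ w * y k) * c = c * ∑ k, x k * γ w * y k :=
    fun w c => (hZRT F⟦X⟧ W As K γ lam x y hrf0 (γ w) (hfx w) c).symm
  have hr1 : ∑ k, x k * γ 1 * y k = ∑ k, x k * y k :=
    Finset.sum_congr rfl fun k _ => by rw [map_one, mul_one]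
  have hc1 : ∀ c : As, (∑ k, x k * y k) * c = c * ∑ k, x k * y k := by
    intro c
    have := hcw 1 c
    rwa [hr1] at this
  have hunit : ∀ w : W, ∃ u : F' ⊗[F⟦X⟧] As, u * ((1 : F') ⊗ₜ[F⟦X⟧] ∑ k, x k * γ w * y k) = 1 := by
    intro w
    obtain ⟨d, a, ha0, ha⟩ := hrel w
    exact hUNR F F' As _ _ u d a hinj (hcw w) hc1 ha0 ha hu
  refine ⟨?_, hper, huni, ⟨lamS, K, inferInstance, _, _, hrf, u, ?_⟩,
    hBLV ℓ F F' W E As K ψ γ lam x y hinj hW hE hper0 huni0 hrf0 hcom hvsh hunit⟩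
  · obtain ⟨Ω, _, _, b, c, hfr, -⟩ := hper
    refine ⟨Submodule.fg_def.2 ⟨Set.range b, Set.finite_range b, ?_⟩⟩
    rw [eq_top_iff]
    rintro m -
    rw [← hfr.2.2 m]
    exact Submodule.sum_mem _ fun t _ => Submodule.smul_mem _ _ (Submodule.subset_span ⟨t, rfl⟩)
  · have e1 : ∑ k, (1 : F') ⊗ₜ[F⟦X⟧] x k * (1 : F') ⊗ₜ[F⟦X⟧] y k =
        (1 : F') ⊗ₜ[F⟦X⟧] ∑ k, x k * y k := by
      rw [TensorProduct.tmul_sum]
      refine Finset.sum_congr rfl fun k _ => ?_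
      rw [Algebra.TensorProduct.tmul_mul_tmul, one_mul]
    rw [e1]
    exact hu

end Pool.Agent.PST.U.H49
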