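import Pool.Agent.PST.StmtsU

open scoped BigOperators TensorProduct PowerSeries

noncomputable section

namespace Pool.Agent.PST.U.H49

theorem lix : LixStmt := by
  intro R S M _ _ _ _ _ _ _ hinj z
  classical
  obtain ⟨T, hT⟩ := TensorProduct.exists_finset z
  have hfs : FaithfulSMul R S := (faithfulSMul_iff_algebraMap_injective R S).2 hinj
  obtain ⟨N, hN⟩ : ∃ N : Submodule R S, N = Submodule.span R (T.image Prod.fst : Set S) := ⟨_, rfl⟩
  have hfin : Module.Finite R N := by
    rw [Module.Finite.iff_fg, hN]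
    exact ⟨T.image Prod.fst, rfl⟩
  have htf : Module.IsTorsionFree R S := Module.isTorsionFree_iff_faithfulSMul.2 hfs
  have hfree : Module.Free R N := inferInstance
  let bs := Module.finBasis R N
  refine ⟨Module.finrank R N, fun i => (bs i : S),
    fun i => ∑ p ∈ T.attach, bs.repr ⟨p.1.1, ?_⟩ i • p.1.2, ?_, ?_⟩
  · rw [hN]
    refine Submodule.subset_span ?_
    exact Finset.mem_coe.2 (Finset.mem_image_of_mem _ p.2)
  · exact bs.linearIndependent.map' N.subtype (Submodule.ker_subtype N)
  · have key : ∀ p : {x // x ∈ T}, ∀ h : p.1.1 ∈ N, (p.1.1 ⊗ₜ[R] p.1.2 : S ⊗[R] M) =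
        ∑ i, (bs i : S) ⊗ₜ[R] (bs.repr ⟨p.1.1, h⟩ i • p.1.2) := by
      intro p h
      have h1 := congrArg (fun n : N => (n : S)) (bs.sum_repr ⟨p.1.1, h⟩)
      simp only [Submodule.coe_sum, Submodule.coe_smul] at h1
      generalize bs.repr ⟨p.1.1, h⟩ = c at h1 ⊢
      rw [← h1, TensorProduct.sum_tmul]
      exact Finset.sum_congr rfl fun i _ => TensorProduct.smul_tmul _ _ _
    rw [hT, ← Finset.sum_attach]
    simp only [TensorProduct.tmul_sum]
    rw [Finset.sum_comm]
    exact Finset.sum_congr rfl fun p _ => key p _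

end Pool.Agent.PST.U.H49
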